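import Pool.Agent.W544.K3.Defs

set_option autoImplicit false

/-! Project K3 of helper544, part COMP. -/

open Module Matrix

namespace Pool.Agent.W368.K3

open Pool.Agent.W544.K3

variable {U : Type} [AddCommGroup U] [Module ℝ U] [FiniteDimensional ℝ U]

lemma span_top (G : Set (End ℝ U)) (h1 : 1 ∈ G) (hmul : ∀ g ∈ G, ∀ g' ∈ G, g * g' ∈ G)
    (hirr : CIrr G) (hdens : S_dens) : Submodule.span ℝ G = ⊤ := by
  have hA : Algebra.adjoin ℝ G = ⊤ := by
    refine hdens U _ fun M hJ hM => hirr M hJ fun y hy p hp => hM y ?_ p hp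
    exact Algebra.subset_adjoin hy
  have h2 := Algebra.adjoin_eq_span (R := ℝ) G
  have h3 : ((Submonoid.closure G : Submonoid (End ℝ U)) : Set (End ℝ U)) = G := by
    let S : Submonoid (End ℝ U) :=
      { carrier := G, mul_mem' := fun {a b} ha hb => hmul a ha b hb, one_mem' := h1 }
    refine Set.Subset.antisymm ?_ Submonoid.subset_closure
    exact (Submonoid.closure_le (S := S)).2 le_rfl
  rw [h3, hA] at h2
  rw [← h2]
  exact Algebra.top_toSubmodule

omit [FiniteDimensional ℝ U] in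
lemma bound (G : Set (End ℝ U)) (hmul : ∀ g ∈ G, ∀ g' ∈ G, g * g' ∈ G)
    (hspan : Submodule.span ℝ G = ⊤) (htr : ∀ g ∈ G, |LinearMap.trace ℝ U g| ≤ finrank ℝ U)
    (c : End ℝ U) : ∃ K : ℝ, ∀ g ∈ G, |LinearMap.trace ℝ U (g * c)| ≤ K := by
  have hc : c ∈ Submodule.span ℝ G := by rw [hspan]; trivial
  induction hc using Submodule.span_induction with
  | mem x hx => exact ⟨finrank ℝ U, fun g hg => htr _ (hmul g hg x hx)⟩
  | zero => exact ⟨0, fun g _ => by simp⟩
  | add x y _ _ hx hy =>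
    obtain ⟨K, hK⟩ := hx
    obtain ⟨L, hL⟩ := hy
    refine ⟨K + L, fun g hg => ?_⟩
    rw [mul_add, map_add]
    exact (abs_add_le _ _).trans (add_le_add (hK g hg) (hL g hg))
  | smul a x _ hx =>
    obtain ⟨K, hK⟩ := hx
    refine ⟨|a| * K, fun g hg => ?_⟩
    rw [mul_smul_comm, map_smul, smul_eq_mul, abs_mul]
    exact mul_le_mul_of_nonneg_left (hK g hg) (abs_nonneg _)

theorem comp (htrace : S_tr) (hdens : S_dens) (hinner : S_inner) : S_comp := by
  intro U _ _ _ G hone hmul hinv hirr hmod B hsym hB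
  rintro ⟨⟨u, hu⟩, ⟨v, hv⟩⟩
  classical
  have hspan := span_top G hone hmul hirr hdens
  have htr : ∀ g ∈ G, |LinearMap.trace ℝ U g| ≤ finrank ℝ U :=
    fun g hg => htrace U g (hmod g hg)
  set m := finrank ℝ U with hm
  let b : Basis (Fin m) ℝ U := finBasis ℝ U
  set T : End ℝ U ≃ₗ[ℝ] Matrix (Fin m) (Fin m) ℝ := LinearMap.toMatrix b b with hT
  -- bounded entries
  have hbd : ∀ i j : Fin m, ∃ K : ℝ, ∀ g ∈ G, |T g i j| ≤ K := by
    intro i j
    obtain ⟨K, hK⟩ := bound G hmul hspan htr ((b.coord i).smulRight (b j))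
    refine ⟨K, fun g hg => ?_⟩
    have h1 : g * (b.coord i).smulRight (b j) = (b.coord i).smulRight (g (b j)) := by
      ext x
      simp
    have h2 := hK g hg
    rw [h1, LinearMap.trace_smulRight] at h2
    rw [hT]
    simpa [LinearMap.toMatrix_apply] using h2
  choose K hK using hbd
  set C : ℝ := ∑ i, ∑ j, |K i j| with hC
  have hKC : ∀ i j, K i j ≤ C := by
    intro i j
    refine (le_abs_self _).trans ((Finset.single_le_sum (f := fun j => |K i j|)
      (fun _ _ => abs_nonneg _) (Finset.mem_univ j)).trans ?_)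
    exact Finset.single_le_sum (f := fun i => ∑ j, |K i j|)
      (fun _ _ => Finset.sum_nonneg fun _ _ => abs_nonneg _) (Finset.mem_univ i)
  have hTmul : ∀ g g' : End ℝ U, T (g * g') = T g * T g' :=
    fun g g' => LinearMap.toMatrix_mul b g g'
  have hTone : T 1 = 1 := LinearMap.toMatrix_one b
  -- the group of matrices
  let GG : Subgroup (GL (Fin m) ℝ) :=
    { carrier := {γ | ∃ g ∈ G, (γ : Matrix (Fin m) (Fin m) ℝ) = T g}
      mul_mem' := by
        rintro γ δ ⟨g, hg, hγ⟩ ⟨d, hd, hδ⟩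
        exact ⟨g * d, hmul g hg d hd, by rw [hTmul, ← hγ, ← hδ]; rfl⟩
      one_mem' := ⟨1, hone, by rw [hTone]; rfl⟩
      inv_mem' := by
        rintro γ ⟨g, hg, hγ⟩
        obtain ⟨g', hg', h1, h2⟩ := hinv g hg
        refine ⟨g', hg', ?_⟩
        rw [Matrix.coe_units_inv, hγ]
        refine Matrix.inv_eq_right_inv ?_
        rw [← hTmul, h1, hTone] }
  obtain ⟨P, hP, hPinv⟩ := hinner m GG C (by
    rintro γ ⟨g, hg, hγ⟩ i j
    rw [hγ]
    exact (hK i j g hg).trans (hKC i j))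
  have hPg : ∀ g ∈ G, (T g)ᵀ * P * T g = P := by
    intro g hg
    obtain ⟨g', hg', h1, h2⟩ := hinv g hg
    let γ : GL (Fin m) ℝ := ⟨T g, T g', by rw [← hTmul, h1, hTone], by rw [← hTmul, h2, hTone]⟩
    have hγ : γ ∈ GG := ⟨g, hg, rfl⟩
    exact hPinv γ hγ
  -- the matrix of `B`
  set N : Matrix (Fin m) (Fin m) ℝ := LinearMap.toMatrix₂ b b B with hN
  have hNg : ∀ g ∈ G, (T g)ᵀ * N * T g = N := by
    intro g hg
    rw [hN, hT, ← LinearMap.toMatrix₂_compl₁₂]
    congr 1
    ext x y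
    simp [hB g hg x y]
  -- the operator `P⁻¹ N` commutes with everything
  have hPu : IsUnit P := hP.isUnit
  have hPdet : IsUnit P.det := (Matrix.isUnit_iff_isUnit_det P).1 hPu
  have hPP : P⁻¹ * P = 1 := Matrix.nonsing_inv_mul P hPdet
  have hPP' : P * P⁻¹ = 1 := Matrix.mul_nonsing_inv P hPdet
  set S : Matrix (Fin m) (Fin m) ℝ := P⁻¹ * N with hS
  have hPS : P * S = N := by rw [hS, ← Matrix.mul_assoc, hPP', Matrix.one_mul]
  have hcG : ∀ g ∈ G, T g * S = S * T g := by
    intro g hg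
    obtain ⟨g', hg', h1, h2⟩ := hinv g hg
    have e1 : T g * T g' = 1 := by rw [← hTmul, h1, hTone]
    have e2 : T g' * T g = 1 := by rw [← hTmul, h2, hTone]
    have hPg' := hPg g hg
    have hNg' := hNg g hg
    -- `P (T g S) = P (S T g)`
    have e3 : (T g)ᵀ * (P * (T g * S)) = (T g)ᵀ * (P * (S * T g)) := by
      calc (T g)ᵀ * (P * (T g * S)) = ((T g)ᵀ * P * T g) * S := by
            simp only [Matrix.mul_assoc]
        _ = N := by rw [hPg', hPS]
        _ = (T g)ᵀ * N * T g := hNg'.symm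
        _ = (T g)ᵀ * (P * (S * T g)) := by rw [← hPS]; simp only [Matrix.mul_assoc]
    have e4 : (T g')ᵀ * (T g)ᵀ = 1 := by
      rw [← Matrix.transpose_mul, e1, Matrix.transpose_one]
    have e5 := congrArg (fun Z => P⁻¹ * ((T g')ᵀ * Z)) e3
    rw [← Matrix.mul_assoc (T g')ᵀ, ← Matrix.mul_assoc (T g')ᵀ, e4, Matrix.one_mul,
      Matrix.one_mul, ← Matrix.mul_assoc P⁻¹, ← Matrix.mul_assoc P⁻¹, hPP, Matrix.one_mul,
      Matrix.one_mul] at e5
    exact e5
  have hcAll : ∀ a : End ℝ U, T a * S = S * T a := by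
    intro a
    have ha : a ∈ Submodule.span ℝ G := by rw [hspan]; trivial
    induction ha using Submodule.span_induction with
    | mem x hx => exact hcG x hx
    | zero => rw [hT]; simp
    | add x y _ _ hx hy =>
      have : T (x + y) = T x + T y := by rw [hT]; exact map_add _ _ _
      rw [this, Matrix.add_mul, Matrix.mul_add, hx, hy]
    | smul c x _ hx =>
      have : T (c • x) = c • T x := by rw [hT]; exact map_smul _ _ _
      rw [this, Matrix.smul_mul, Matrix.mul_smul, hx]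
  obtain ⟨c, hc⟩ := Matrix.mem_range_scalar_of_commute_single (M := S) (fun i j _ => by
    have h1 := hcAll (Matrix.toLin b b (Matrix.single i j 1))
    rw [hT] at h1
    simp only [LinearMap.toMatrix_toLin] at h1
    exact h1)
  have hNP : N = c • P := by
    rw [← hPS, ← hc, Matrix.scalar_apply, ← Matrix.smul_one_eq_diagonal, Matrix.mul_smul,
      Matrix.mul_one]
  have hq : ∀ x : U, B x x = c * ((b.repr x : Fin m → ℝ) ⬝ᵥ (P *ᵥ (b.repr x : Fin m → ℝ))) := by
    intro x
    have h1 := apply_eq_dotProduct_toMatrix₂_mulVec b b B x x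
    rw [← hN, hNP, Matrix.smul_mulVec, dotProduct_smul, smul_eq_mul] at h1
    simpa using h1
  have hpos : ∀ x : U, 0 ≤ (b.repr x : Fin m → ℝ) ⬝ᵥ (P *ᵥ (b.repr x : Fin m → ℝ)) := by
    intro x
    have := hP.posSemidef.dotProduct_mulVec_nonneg (b.repr x : Fin m → ℝ)
    simpa using this
  rw [hq u] at hu
  rw [hq v] at hv
  rcases le_or_gt 0 c with h | h
  · exact absurd hv (not_lt.2 (mul_nonneg h (hpos v)))
  · exact absurd hu (not_lt.2 (mul_nonpos_of_nonpos_of_nonneg h.le (hpos u)))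

end Pool.Agent.W368.K3
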